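import Mathlib

set_option autoImplicit false

namespace Pool.Agent.H.MP_2f2b65_an

open Filter Topology Set

def Wur (X : Type) [NormedAddCommGroup X] [NormedSpace ℝ X] : Prop :=
  ∃ N : X → ℝ, (∀ a b, N (a + b) ≤ N a + N b) ∧ (∀ (r : ℝ) a, N (r • a) = |r| * N a) ∧
    (∃ c C : ℝ, 0 < c ∧ 0 < C ∧ ∀ a, c * ‖a‖ ≤ N a ∧ N a ≤ C * ‖a‖) ∧
    ∀ u v : ℕ → X, (∀ n, N (u n) ≤ 1) → (∀ n, N (v n) ≤ 1) →
      Tendsto (fun n => N (u n + v n)) atTop (𝓝 2) →
      ∀ f : X →L[ℝ] ℝ, Tendsto (fun n => f (u n - v n)) atTop (𝓝 0)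

noncomputable def pr {I : Type} (φ : I → ℝ) : (I →₀ ℝ) →ₗ[ℝ] ℝ := Finsupp.linearCombination ℝ φ

lemma space {I : Type} (F : Set (I → ℝ)) (hF : ∀ φ ∈ F, ∀ i, |φ i| ≤ 2) :
    ∃ (X : Type) (_ : NormedAddCommGroup X) (_ : NormedSpace ℝ X) (_ : CompleteSpace X)
      (j : (I →₀ ℝ) →ₗ[ℝ] X), DenseRange j ∧
      (∀ x r, 0 ≤ r → (∀ φ ∈ F, |pr φ x| ≤ r) → ‖j x‖ ≤ r) ∧
      ∀ φ ∈ F, ∀ x, |pr φ x| ≤ ‖j x‖ := by
  let J : (I →₀ ℝ) →ₗ[ℝ] lp (fun _ : F => ℝ) ⊤ :=
    { toFun := fun x => ⟨fun φ => pr φ.1 x, memℓp_infty ⟨∑ i ∈ x.support, |x i| * 2, by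
        rintro _ ⟨φ, rfl⟩
        refine (Finset.abs_sum_le_sum_abs _ _).trans (Finset.sum_le_sum fun i _ => ?_)
        change |x i * φ.1 i| ≤ _
        rw [abs_mul]
        exact mul_le_mul_of_nonneg_left (hF _ φ.2 i) (abs_nonneg _)⟩⟩
      map_add' := fun x y => lp.ext (funext fun φ => map_add (pr φ.1) x y)
      map_smul' := fun c x => lp.ext (funext fun φ => map_smul (pr φ.1) c x) }
  refine ⟨(LinearMap.range J).topologicalClosure, inferInstance, inferInstance, inferInstance,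
    J.codRestrict _ fun x => Submodule.le_topologicalClosure _ ⟨x, rfl⟩, ?_,
    fun x r hr h => lp.norm_le_of_forall_le hr fun φ => h _ φ.2,
    fun φ hφ x => lp.norm_apply_le_norm ENNReal.top_ne_zero (J x) ⟨φ, hφ⟩⟩
  rintro ⟨z, hz⟩
  rw [closure_subtype, ← range_comp]
  exact hz

lemma mk_wur {E ι : Type} [NormedAddCommGroup E] [NormedSpace ℝ E] (c : ι → E →L[ℝ] ℝ) {K : ℝ}
    (K0 : 0 ≤ K) (hK : ∀ (S : Finset ι) x, ∑ i ∈ S, c i x ^ 4 ≤ K * ‖x‖ ^ 4)
    (hw : ∀ (f : E →L[ℝ] ℝ) (z : ℕ → E), (∀ n, ‖z n‖ ≤ 2) →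
      (∀ i, Tendsto (fun n => c i (z n)) atTop (𝓝 0)) → Tendsto (fun n => f (z n)) atTop (𝓝 0)) :
    Wur E := by
  have : Fact ((1 : ENNReal) ≤ 4) := ⟨by norm_num⟩
  have e4 : ∀ t : ℝ, ‖t‖ ^ (4 : ENNReal).toReal = t ^ 4 := fun t => by
    rw [ENNReal.toReal_ofNat, Real.rpow_ofNat, Real.norm_eq_abs, Even.pow_abs ⟨2, rfl⟩]
  have sm : ∀ x, Summable fun i => c i x ^ 4 := fun x =>
    summable_of_sum_le (fun _ => by positivity) fun S => hK S x
  let T : E →ₗ[ℝ] lp (fun _ : ι => ℝ) 4 :=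
    { toFun := fun x => ⟨fun i => c i x, memℓp_gen (by simpa only [e4] using sm x)⟩
      map_add' := fun x y => lp.ext (funext fun i => map_add (c i) x y)
      map_smul' := fun r x => lp.ext (funext fun i => map_smul (c i) r x) }
  let U : E →ₗ[ℝ] WithLp 4 (E × lp (fun _ : ι => ℝ) 4) :=
    (WithLp.linearEquiv 4 ℝ _).symm.toLinearMap ∘ₗ LinearMap.id.prod T
  have hU : ∀ x, ‖U x‖ ^ 4 = ‖x‖ ^ 4 + ∑' i, c i x ^ 4 := fun x => by
    have h1 := WithLp.prod_norm_eq_add (p := 4) (by norm_num) (U x)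
    have h2 := lp.norm_rpow_eq_tsum (p := 4) (by norm_num) (T x)
    simp only [e4] at h2
    rw [← Real.rpow_ofNat, h1, ← Real.rpow_mul (by positivity), ENNReal.toReal_ofNat,
      one_div_mul_cancel (by norm_num), Real.rpow_one, Real.rpow_ofNat]
    rw [ENNReal.toReal_ofNat] at h2
    exact congrArg (‖x‖ ^ 4 + ·) h2
  have lo : ∀ x, ‖x‖ ≤ ‖U x‖ := fun x => le_of_pow_le_pow_left₀ four_ne_zero (norm_nonneg _) (by
    rw [hU]
    exact le_add_of_nonneg_right (tsum_nonneg fun _ => by positivity))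
  refine ⟨fun x => ‖U x‖, fun a b => by beta_reduce; rw [map_add]; exact norm_add_le _ _,
    fun r a => by beta_reduce; rw [map_smul, norm_smul, Real.norm_eq_abs],
    ⟨1, 1 + K, one_pos, by positivity, fun a => ⟨by simpa using lo a, ?_⟩⟩,
    fun u v hu hv h f => hw f _ (fun n => ?_) fun i => ?_⟩
  · refine le_of_pow_le_pow_left₀ four_ne_zero (by positivity) ?_
    have h1 := (sm a).tsum_le_of_sum_le fun S => hK S a
    have h2 : 1 + K ≤ (1 + K) ^ 4 := le_self_pow₀ (by linarith) four_ne_zero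
    rw [hU, mul_pow]
    nlinarith [mul_le_mul_of_nonneg_right h2 (show 0 ≤ ‖a‖ ^ 4 by positivity)]
  · linarith [norm_sub_le (u n) (v n), lo (u n), lo (v n), hu n, hv n]
  · have h1 := (h.pow 4).const_sub 16
    rw [show (16 : ℝ) - 2 ^ 4 = 0 by norm_num] at h1
    have cl : ∀ a b : ℝ, (a + b) ^ 4 + (a - b) ^ 4 ≤ 8 * a ^ 4 + 8 * b ^ 4 := fun a b => by
      nlinarith [sq_nonneg (a ^ 2 - b ^ 2)]
    have h2 : Tendsto (fun n => |c i (u n - v n)| ^ 4) atTop (𝓝 0) := by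
      refine squeeze_zero (fun _ => by positivity) (fun n => ?_) h1
      have a1 := pow_le_one₀ (n := 4) (norm_nonneg _) (hu n)
      have a2 := pow_le_one₀ (n := 4) (norm_nonneg _) (hv n)
      have a3 := pow_le_pow_left₀ (norm_nonneg _) (norm_add_le (u n) (v n)) 4
      have a4 := cl ‖u n‖ ‖v n‖
      have a5 := (sm (u n - v n)).le_tsum i fun _ _ => by positivity
      have a6 := ((sm (u n + v n)).add (sm (u n - v n))).tsum_le_tsum (fun i => by
        rw [map_add, map_sub]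
        exact cl _ _) (((sm (u n)).mul_left 8).add ((sm (v n)).mul_left 8))
      rw [(sm _).tsum_add (sm _), ((sm _).mul_left 8).tsum_add ((sm _).mul_left 8), tsum_mul_left,
        tsum_mul_left] at a6
      rw [hU] at a1 a2
      rw [hU, (by decide : Even 4).pow_abs]
      linarith [show 0 ≤ (‖u n‖ - ‖v n‖) ^ 4 by positivity]
    rw [tendsto_zero_iff_abs_tendsto_zero]
    have := (h2.sqrt).sqrt
    simp only [Real.sqrt_zero] at this
    refine this.congr fun n => ?_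
    rw [show |c i (u n - v n)| ^ 4 = (|c i (u n - v n)| ^ 2) ^ 2 by ring,
      Real.sqrt_sq (sq_nonneg _), Real.sqrt_sq (abs_nonneg _)]
    rfl

def Br (n : ℕ) (a b : ℕ → ℕ) : Prop := (∀ i < n, a i = b i) ∧ a n ≠ b n

lemma diag (G : ℕ → Set (ℕ → ℕ)) (h : ∀ a, ∃ n, a ∈ G n) :
    ∃ n, ∃ a : ℕ → ℕ → ℕ, ∀ k ≤ n, a k ∈ G n ∧ ∀ l, l ≤ n → k ≠ l → Br n (a k) (a l) := by
  by_contra hc
  have h1 : ∀ n (s : ℕ → ℕ), ∃ k, ∀ a ∈ G n, (∀ i < n, a i = s i) → a n ≠ k := fun n s => by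
    by_contra h2
    push Not at h2
    choose a h3 h4 h5 using h2
    exact hc ⟨n, a, fun k _ => ⟨h3 k, fun l _ hl =>
      ⟨fun i hi => (h4 k i hi).trans (h4 l i hi).symm, by rwa [h5, h5]⟩⟩⟩
  choose k hk using h1
  let s : ℕ → ℕ → ℕ := fun n => Nat.rec (fun _ => 0) (fun n t => Function.update t n (k n t)) n
  have h2 : ∀ n, ∀ i < n, s n i = k i (s i) := fun n => by
    induction n with
    | zero => simp
    | succ n ih =>
      intro i hi
      change Function.update (s n) n (k n (s n)) i = _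
      rcases (Nat.lt_succ_iff.1 hi).eq_or_lt with rfl | h
      · simp
      · rw [Function.update_of_ne h.ne, ih i h]
  obtain ⟨n, hn⟩ := h fun i => k i (s i)
  exact hk n (s n) _ hn (fun i hi => (h2 n i hi).symm) rfl

lemma no_wur {X : Type} [NormedAddCommGroup X] [NormedSpace ℝ X] (f : (ℕ → ℕ) → X →L[ℝ] ℝ)
    (x : ℕ → (ℕ → ℕ) → X) (hf : ∀ a z, |f a z| ≤ ‖z‖) (h1 : ∀ n a, f a (x n a) = 1)
    (h2 : ∀ n (a : ℕ → ℕ → ℕ), (∀ k ≤ n, ∀ l, l ≤ n → k ≠ l → Br n (a k) (a l)) →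
      ∀ ε : ℕ → ℝ, (∀ k, |ε k| ≤ 1) → ‖∑ k ∈ Finset.range (n + 1), ε k • x n (a k)‖ ≤ 1) :
    ¬Wur X := by
  rintro ⟨N, ad, sm, ⟨c, C, c0, C0, hN⟩, hw⟩
  have k1 : ∀ a, ∃ n : ℕ, ∀ s y, f a y = 1 → N (s + y) ≤ C → N (s - y) ≤ C →
      N s + 2 * C / (n + 1) ≤ max (N (s + y)) (N (s - y)) := fun a => by
    by_contra hc
    push Not at hc
    choose s y e1 e2 e3 e4 using hc
    set M : ℕ → ℝ := fun n => max (N (s n + y n)) (N (s n - y n))
    have m1 : ∀ n, c ≤ M n := fun n => by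
      have a1 := ad (s n + y n) ((-1 : ℝ) • (s n - y n))
      rw [show s n + y n + (-1 : ℝ) • (s n - y n) = (2 : ℝ) • y n by module, sm, sm] at a1
      have a2 := hf a (y n)
      rw [e1, abs_one] at a2
      norm_num at a1
      nlinarith [(hN (y n)).1, le_max_left (N (s n + y n)) (N (s n - y n)),
        le_max_right (N (s n + y n)) (N (s n - y n))]
    have m0 : ∀ n, 0 < M n := fun n => c0.trans_le (m1 n)
    have m2 : ∀ n z, N ((M n)⁻¹ • z) = N z / M n := fun n z => by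
      rw [sm, abs_of_pos (inv_pos.2 (m0 n)), inv_mul_eq_div]
    have u1 := fun n => (m2 n _).trans_le ((div_le_one (m0 n)).2 (le_max_left _ _))
    have u2 := fun n => (m2 n _).trans_le ((div_le_one (m0 n)).2 (le_max_right _ _))
    have := hw _ _ u1 u2 ?_ (f a)
    · obtain ⟨n, hn⟩ := (this.eventually (gt_mem_nhds (show 0 < 2 / C by positivity))).exists
      rw [← smul_sub, show s n + y n - (s n - y n) = (2 : ℝ) • y n by module, map_smul, map_smul,
        e1, smul_eq_mul, smul_eq_mul, mul_one, inv_mul_eq_div] at hn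
      exact hn.not_ge (div_le_div_of_nonneg_left two_pos.le (m0 n) (max_le (e2 n) (e3 n)))
    · have t := (tendsto_one_div_add_atTop_nhds_zero_nat.const_mul (4 * C / c)).const_sub (2 : ℝ)
      rw [mul_zero, sub_zero] at t
      refine tendsto_of_tendsto_of_tendsto_of_le_of_le t tendsto_const_nhds (fun n => ?_)
        fun n => (ad _ _).trans (by linarith [u1 n, u2 n])
      beta_reduce
      rw [← smul_add, show s n + y n + (s n - y n) = (2 : ℝ) • s n by module, m2, sm,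
        le_div_iff₀ (m0 n), abs_two]
      have a1 := e4 n
      have a2 : 2 * (2 * C / (n + 1)) ≤ 4 * C / c * (1 / (n + 1)) * M n := by
        rw [show 2 * (2 * C / (n + 1)) = 4 * C / c * (1 / (n + 1)) * c by field_simp; ring]
        exact mul_le_mul_of_nonneg_left (m1 n) (by positivity)
      linarith
  obtain ⟨n, a, ha⟩ := diag (fun n => {a | ∀ s y, f a y = 1 → N (s + y) ≤ C → N (s - y) ≤ C →
      N s + 2 * C / (n + 1) ≤ max (N (s + y)) (N (s - y))}) k1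
  have bd : ∀ ε : ℕ → ℝ, (∀ k, |ε k| ≤ 1) → N (∑ k ∈ Finset.range (n + 1), ε k • x n (a k)) ≤ C :=
    fun ε hε => (hN _).2.trans (mul_le_of_le_one_right C0.le (h2 n a (fun k hk => (ha k hk).2) ε hε))
  have k2 : ∀ m ≤ n + 1, ∃ ε : ℕ → ℝ, (∀ k, |ε k| ≤ 1) ∧ (∀ k, m ≤ k → ε k = 0) ∧
      m * (2 * C / (n + 1)) ≤ N (∑ k ∈ Finset.range (n + 1), ε k • x n (a k)) := fun m hm => by
    induction m with
    | zero => exact ⟨0, by simp, by simp, by
        simpa using (mul_nonneg c0.le (norm_nonneg _)).trans (hN 0).1⟩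
    | succ m ih =>
      obtain ⟨ε, e1, e2, e3⟩ := ih (by omega)
      have up : ∀ t : ℝ, |t| ≤ 1 → (∀ k, |(ε + Pi.single m t : ℕ → ℝ) k| ≤ 1) ∧
          (∀ k, m + 1 ≤ k → (ε + Pi.single m t : ℕ → ℝ) k = 0) ∧
          ∑ k ∈ Finset.range (n + 1), (ε + Pi.single m t : ℕ → ℝ) k • x n (a k) =
            ∑ k ∈ Finset.range (n + 1), ε k • x n (a k) + t • x n (a m) := fun t ht => by
        refine ⟨fun k => ?_, fun k hk => ?_, ?_⟩
        · rcases eq_or_ne k m with rfl | h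
          · simpa [e2 k le_rfl] using ht
          · simpa [h] using e1 k
        · simp [e2 k (by omega), show k ≠ m by omega]
        · simp [add_smul, Finset.sum_add_distrib, Pi.single_apply, show m < n + 1 by omega]
      obtain ⟨p1, p2, p3⟩ := up 1 (by simp)
      obtain ⟨q1, q2, q3⟩ := up (-1) (by simp)
      rw [one_smul] at p3
      rw [neg_one_smul, ← sub_eq_add_neg] at q3
      have := (ha m (by omega)).1 _ _ (h1 n (a m)) (p3 ▸ bd _ p1) (q3 ▸ bd _ q1)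
      rcases le_max_iff.1 this with h | h
      · exact ⟨_, p1, p2, by rw [p3]; push_cast; linarith⟩
      · exact ⟨_, q1, q2, by rw [q3]; push_cast; linarith⟩
  obtain ⟨ε, e1, -, e3⟩ := k2 _ le_rfl
  rw [Nat.cast_succ, mul_div_cancel₀ _ (by positivity)] at e3
  linarith [bd ε e1]

end Pool.Agent.H.MP_2f2b65_an
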