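import Pool.Agent.H.MP_2f2b65_an.A

set_option autoImplicit false

namespace Pool.Agent.H.MP_2f2b65_an

open Filter Topology Set Classical

abbrev Γ := ℕ → ℕ
abbrev I := Option ℕ × Γ

def Ok (l : Γ → ℕ) (Q : Finset (Γ × Γ)) : Prop :=
  (∀ e ∈ Q, l e.1 = l e.2 ∧ (e.1 = e.2 ∨ Br (l e.1) e.1 e.2)) ∧
  (∀ a, (Q.filter (·.1 = a)).card ≤ l a + 1) ∧ ∀ a, (Q.filter (·.2 = a)).card ≤ l a + 1

noncomputable def qq (φ : I → ℝ) (l : Γ → ℕ) (a : Γ) : ℝ := |φ (none, a) + φ (some (l a), a)|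

noncomputable def val (φ : I → ℝ) (S : Finset (ℕ × Γ)) (l : Γ → ℕ) (Q : Finset (Γ × Γ)) : ℝ :=
  ∑ s ∈ S, φ (some s.1, s.2) ^ 2 + ∑ e ∈ Q, qq φ l e.1 * qq φ l e.2

def Bd (φ : I → ℝ) (t : ℝ) : Prop := ∀ S l Q, Ok l Q → val φ S l Q ≤ t

variable {φ : I → ℝ} {t : ℝ}

lemma ok0 : Ok 0 ∅ := ⟨by simp, by simp, by simp⟩

lemma Bd.nn (h : Bd φ t) : 0 ≤ t := by simpa [val] using h ∅ 0 ∅ ok0

lemma Bd.smul (h : Bd φ t) (c : ℝ) : Bd (c • φ) (c ^ 2 * t) := fun S l Q hQ => by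
  refine le_trans (le_of_eq ?_) (mul_le_mul_of_nonneg_left (h S l Q hQ) (sq_nonneg c))
  simp only [val, qq, Pi.smul_apply, smul_eq_mul, ← mul_add, abs_mul, mul_pow]
  rw [mul_add, Finset.mul_sum, Finset.mul_sum, ← sq_abs c]
  congr 1
  exact Finset.sum_congr rfl fun _ _ => by ring

lemma Bd.two (h : Bd φ 1) (i : I) : |φ i| ≤ 2 := by
  obtain ⟨_ | n, a⟩ := i
  · have := h {(0, a)} 0 {(a, a)} ⟨by simp, fun _ => (Finset.card_filter_le _ _).trans (by simp),
      fun _ => (Finset.card_filter_le _ _).trans (by simp)⟩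
    simp only [val, qq, Finset.sum_singleton, Pi.zero_apply, abs_mul_abs_self] at this
    exact abs_le_of_sq_le_sq (by nlinarith [sq_nonneg (φ (none, a) + 2 * φ (some 0, a))]) two_pos.le
  · have := h {(n, a)} 0 ∅ ok0
    simp only [val, Finset.sum_singleton, Finset.sum_empty] at this
    exact abs_le_of_sq_le_sq (by linarith) two_pos.le

noncomputable def res (D : Set Γ) (φ : I → ℝ) (i : I) : ℝ := if i.2 ∈ D then φ i else 0

lemma val_res (D : Set Γ) (S : Finset (ℕ × Γ)) (l l' : Γ → ℕ) (Q : Finset (Γ × Γ))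
    (h : ∀ a ∈ D, l' a = l a) : val (res D φ) S l Q =
      val φ (S.filter (·.2 ∈ D)) l' (Q.filter fun e => e.1 ∈ D ∧ e.2 ∈ D) := by
  rw [val, val, Finset.sum_filter, Finset.sum_filter]
  congr 1 <;> refine Finset.sum_congr rfl fun e _ => ?_
  · by_cases h1 : e.2 ∈ D <;> simp [res, h1]
  · by_cases h1 : e.1 ∈ D <;> by_cases h2 : e.2 ∈ D <;> simp [res, qq, h1, h2, h]

lemma split (h : Bd φ 1) (D E : Set Γ) (hE : ∀ a, a ∈ E ↔ a ∉ D) :
    ∃ a, Bd (res D φ) a ∧ Bd (res E φ) (1 - a) := by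
  refine (exists_between_of_forall_le
    (s := {v | ∃ S l Q, Ok l Q ∧ val (res D φ) S l Q = v})
    (t := {v | ∃ S l Q, Ok l Q ∧ 1 - val (res E φ) S l Q = v}) ⟨_, ∅, 0, ∅, ok0, rfl⟩
    ⟨_, ∅, 0, ∅, ok0, rfl⟩ ?_).imp fun a ⟨h1, h2⟩ => ⟨fun S l Q hQ => h1 ⟨S, l, Q, hQ, rfl⟩,
      fun S l Q hQ => le_sub_comm.1 (h2 ⟨S, l, Q, hQ, rfl⟩)⟩
  rintro _ ⟨S, l, Q, ⟨a1, a2, a3⟩, rfl⟩ _ ⟨S', l', Q', ⟨b1, b2, b3⟩, rfl⟩
  let L : Γ → ℕ := fun a => if a ∈ D then l a else l' a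
  have L1 : ∀ a ∈ D, L a = l a := fun a ha => if_pos ha
  have L2 : ∀ a ∈ E, L a = l' a := fun a ha => if_neg ((hE a).1 ha)
  have := h (S.filter (·.2 ∈ D) ∪ S'.filter (·.2 ∈ E)) L
    (Q.filter (fun e => e.1 ∈ D ∧ e.2 ∈ D) ∪ Q'.filter fun e => e.1 ∈ E ∧ e.2 ∈ E)
    ⟨fun e he => ?_, fun a => ?_, fun a => ?_⟩
  · rw [val, Finset.sum_union (Finset.disjoint_left.2 fun e p q => by
      simp only [Finset.mem_filter] at p q; exact (hE _).1 q.2 p.2),
      Finset.sum_union (Finset.disjoint_left.2 fun e p q => by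
        simp only [Finset.mem_filter] at p q; exact (hE _).1 q.2.1 p.2.1)] at this
    rw [val_res D S l L Q L1, val_res E S' l' L Q' L2, val, val]
    linarith
  · rcases Finset.mem_union.1 he with p | p <;> obtain ⟨p, q, r⟩ := Finset.mem_filter.1 p
    · rw [L1 _ q, L1 _ r]
      exact a1 e p
    · rw [L2 _ q, L2 _ r]
      exact b1 e p
  · by_cases ha : a ∈ D
    · rw [L1 a ha]
      refine (Finset.card_le_card fun e he => ?_).trans (a2 a)
      simp only [Finset.mem_filter, Finset.mem_union] at he ⊢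
      exact ⟨(he.1.resolve_right fun p => (hE _).1 p.2.1 (he.2 ▸ ha)).1, he.2⟩
    · rw [L2 a ((hE a).2 ha)]
      refine (Finset.card_le_card fun e he => ?_).trans (b2 a)
      simp only [Finset.mem_filter, Finset.mem_union] at he ⊢
      exact ⟨(he.1.resolve_left fun p => ha (he.2 ▸ p.2.1)).1, he.2⟩
  · by_cases ha : a ∈ D
    · rw [L1 a ha]
      refine (Finset.card_le_card fun e he => ?_).trans (a3 a)
      simp only [Finset.mem_filter, Finset.mem_union] at he ⊢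
      exact ⟨(he.1.resolve_right fun p => (hE _).1 p.2.2 (he.2 ▸ ha)).1, he.2⟩
    · rw [L2 a ((hE a).2 ha)]
      refine (Finset.card_le_card fun e he => ?_).trans (b3 a)
      simp only [Finset.mem_filter, Finset.mem_union] at he ⊢
      exact ⟨(he.1.resolve_left fun p => ha (he.2 ▸ p.2.2)).1, he.2⟩

lemma deg (F : Finset Γ) (Q : Finset (Γ × Γ)) (π : Γ × Γ → Γ) (hπ : ∀ e ∈ Q, π e ∈ F)
    (u d : Γ → ℝ) (hd : ∀ a, ((Q.filter (π · = a)).card : ℝ) ≤ d a) :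
    ∑ e ∈ Q, u (π e) ^ 2 ≤ ∑ a ∈ F, d a * u a ^ 2 := by
  rw [← Finset.sum_fiberwise_of_maps_to hπ]
  refine Finset.sum_le_sum fun a _ => ?_
  rw [Finset.sum_congr rfl (g := fun _ => u a ^ 2) fun e he => by rw [(Finset.mem_filter.1 he).2],
    Finset.sum_const, nsmul_eq_mul]
  exact mul_le_mul_of_nonneg_right (hd a) (sq_nonneg _)

noncomputable def vt (T : Finset (ℕ × Γ)) (p : ℕ × Γ → ℝ) (i : I) : ℝ :=
  i.1.elim 0 fun n => if (n, i.2) ∈ T then p (n, i.2) else 0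

lemma vb (T : Finset (ℕ × Γ)) (p : ℕ × Γ → ℝ) (F : Finset Γ) (hF : ∀ s ∈ T, s.2 ∈ F) (ω : ℕ → ℝ)
    (hω : ∀ n : ℕ, (n + 1 : ℝ) ≤ ω n ∨ (F.card : ℝ) ≤ ω n) :
    Bd (vt T p) (∑ s ∈ T, (1 + ω s.1) * p s ^ 2) := fun S l Q ⟨_, a2, a3⟩ => by
  have ω0 : ∀ n, 0 ≤ ω n := fun n => (hω n).elim (le_trans (by positivity)) (le_trans (by positivity))
  have h1 : ∑ s ∈ S, vt T p (some s.1, s.2) ^ 2 ≤ ∑ s ∈ T, p s ^ 2 := by
    rw [Finset.sum_congr rfl (g := fun s => if s ∈ T then p s ^ 2 else 0) fun s _ => by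
      by_cases h : s ∈ T <;> simp [vt, h], ← Finset.sum_filter]
    exact Finset.sum_le_sum_of_subset_of_nonneg (fun s hs => (Finset.mem_filter.1 hs).2)
      fun _ _ _ => sq_nonneg _
  have h2 : ∑ a ∈ F, ω (l a) * qq (vt T p) l a ^ 2 ≤ ∑ s ∈ T, ω s.1 * p s ^ 2 := by
    rw [Finset.sum_congr rfl (g := fun a => (fun s : ℕ × Γ => if s ∈ T then ω s.1 * p s ^ 2 else 0)
      (l a, a)) fun a _ => by by_cases h : (l a, a) ∈ T <;> simp [vt, qq, h],
      ← Finset.sum_image (f := fun s : ℕ × Γ => if s ∈ T then ω s.1 * p s ^ 2 else 0)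
        (g := fun a => (l a, a)) fun _ _ _ _ h => (Prod.ext_iff.1 h).2,
      ← Finset.sum_filter]
    exact Finset.sum_le_sum_of_subset_of_nonneg (fun s hs => (Finset.mem_filter.1 hs).2)
      fun _ _ _ => mul_nonneg (ω0 _) (sq_nonneg _)
  have h3 : ∑ e ∈ Q, qq (vt T p) l e.1 * qq (vt T p) l e.2 =
      ∑ e ∈ Q.filter (fun e => e.1 ∈ F ∧ e.2 ∈ F), qq (vt T p) l e.1 * qq (vt T p) l e.2 := by
    have : ∀ a ∉ F, qq (vt T p) l a = 0 := fun a ha => by
      have : (l a, a) ∉ T := fun h => ha (hF _ h)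
      simp [vt, qq, this]
    refine (Finset.sum_filter_of_ne fun e _ he => ?_).symm
    exact ⟨by_contra fun h => he (by rw [this _ h, zero_mul]),
      by_contra fun h => he (by rw [this _ h, mul_zero])⟩
  have h4 := deg F (Q.filter fun e => e.1 ∈ F ∧ e.2 ∈ F) Prod.fst
    (fun e he => (Finset.mem_filter.1 he).2.1) (qq (vt T p) l) (fun a => ω (l a)) fun a => by
      refine (hω (l a)).elim (le_trans ?_) (le_trans ?_)
      · exact_mod_cast (Finset.card_le_card (Finset.filter_subset_filter _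
          (Finset.filter_subset _ _))).trans (a2 a)
      · exact_mod_cast Finset.card_le_card_of_injOn Prod.snd
          (fun e he => by simp at he ⊢; exact he.1.2.2) fun e he e' he' h =>
          Prod.ext (Eq.trans (Finset.mem_filter.1 he).2 (Finset.mem_filter.1 he').2.symm) h
  have h5 := deg F (Q.filter fun e => e.1 ∈ F ∧ e.2 ∈ F) Prod.snd
    (fun e he => (Finset.mem_filter.1 he).2.2) (qq (vt T p) l) (fun a => ω (l a)) fun a => by
      refine (hω (l a)).elim (le_trans ?_) (le_trans ?_)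
      · exact_mod_cast (Finset.card_le_card (Finset.filter_subset_filter _
          (Finset.filter_subset _ _))).trans (a3 a)
      · exact_mod_cast Finset.card_le_card_of_injOn Prod.fst
          (fun e he => by simp at he ⊢; exact he.1.2.1) fun e he e' he' h =>
          Prod.ext h (Eq.trans (Finset.mem_filter.1 he).2 (Finset.mem_filter.1 he').2.symm)
  have h6 := Finset.sum_le_sum (s := Q.filter fun e => e.1 ∈ F ∧ e.2 ∈ F) fun e _ =>
    two_mul_le_add_sq (qq (vt T p) l e.1) (qq (vt T p) l e.2)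
  simp only [mul_assoc, ← Finset.mul_sum, Finset.sum_add_distrib] at h6
  simp only [val, add_mul, one_mul, Finset.sum_add_distrib, h3]
  linarith

lemma dg (l : Γ → ℕ) (Q : Finset (Γ × Γ)) (D : Finset Γ) (u : Γ → ℝ)
    (h : ∀ e ∈ Q, qq φ l e.1 * qq φ l e.2 ≠ 0 → e.1 = e.2 ∧ e.1 ∈ D ∧ qq φ l e.1 ^ 2 ≤ u e.1 ^ 2) :
    ∑ e ∈ Q, qq φ l e.1 * qq φ l e.2 ≤ ∑ a ∈ D, u a ^ 2 := by
  rw [← Finset.sum_filter_ne_zero]
  have := deg D (Q.filter fun e => qq φ l e.1 * qq φ l e.2 ≠ 0) Prod.fst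
    (fun e he => (h e (Finset.mem_filter.1 he).1 (Finset.mem_filter.1 he).2).2.1) u 1 fun a => by
      rw [Pi.one_apply, Nat.cast_le_one, Finset.card_le_one]
      intro e he e' he'
      simp only [Finset.mem_filter] at he he'
      exact Prod.ext (he.2.trans he'.2.symm) ((h e he.1.1 he.1.2).1.symm.trans
        ((he.2.trans he'.2.symm).trans (h e' he'.1.1 he'.1.2).1))
  simp only [Pi.one_apply, one_mul] at this
  refine le_trans (Finset.sum_le_sum fun e he => ?_) this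
  obtain ⟨h1, -, h2⟩ := h e (Finset.mem_filter.1 he).1 (Finset.mem_filter.1 he).2
  rwa [← h1, ← sq]

lemma fb (a : Γ) : Bd (Pi.single (none, a) 1) 1 := fun S l Q _ => by
  have := dg (φ := Pi.single (none, a) 1) l Q {a} 1 fun e _ he => by
    by_cases h1 : e.1 = a <;> by_cases h2 : e.2 = a <;> simp_all [qq]
  simpa [val] using this

noncomputable def ms (D : Finset Γ) (y : Γ → ℝ) (n : ℕ) (a : Γ) : ℝ :=
  ∑ b ∈ D.filter (fun b => ∀ i < n, b i = a i), y b ^ 4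

def Lt (D : Finset Γ) (y : Γ → ℝ) (n : ℕ) (a : Γ) : Prop := 2 * ms D y (n + 1) a ≤ ms D y n a

lemma cnt (D : Finset Γ) (y : Γ → ℝ) (a : Γ) (N : ℕ) :
    2 ^ ((Finset.range N).filter (Lt D y · a)).card * ms D y N a ≤ ∑ b ∈ D, y b ^ 4 := by
  induction N with
  | zero => simp [ms]
  | succ N ih =>
    rw [Finset.range_add_one, Finset.filter_insert]
    split_ifs with h
    · rw [Finset.card_insert_of_notMem (by simp), pow_succ, mul_assoc]
      exact (mul_le_mul_of_nonneg_left h (by positivity)).trans ih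
    · refine (mul_le_mul_of_nonneg_left (Finset.sum_le_sum_of_subset_of_nonneg
        (Finset.monotone_filter_right _ fun b _ hb i hi => hb i (by omega))
        fun _ _ _ => by positivity) (by positivity)).trans ih

lemma cnt2 (D : Finset Γ) (y : Γ → ℝ) {a : Γ} (ha : a ∈ D) (T : Finset ℕ) (hT : ∀ n ∈ T, Lt D y n a) :
    T.card * y a ^ 2 ≤ 2 * √(∑ b ∈ D, y b ^ 4) ∧ y a ^ 2 ≤ √(∑ b ∈ D, y b ^ 4) := by
  have h1 := cnt D y a (T.sup id + 1)
  have h2 : y a ^ 4 ≤ ms D y (T.sup id + 1) a :=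
    Finset.single_le_sum (f := fun b => y b ^ 4) (fun _ _ => by positivity) (by simpa using ha)
  have h3 : T.card ≤ ((Finset.range (T.sup id + 1)).filter (Lt D y · a)).card :=
    Finset.card_le_card fun n hn => Finset.mem_filter.2
      ⟨Finset.mem_range.2 (Nat.lt_succ_of_le (Finset.le_sup (f := id) hn)), hT n hn⟩
  have h4 : (2 : ℝ) ^ T.card * y a ^ 4 ≤ ∑ b ∈ D, y b ^ 4 :=
    (mul_le_mul (pow_le_pow_right₀ one_le_two h3) h2 (by positivity) (by positivity)).trans h1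
  have h5 : ∀ L : ℕ, L ^ 2 ≤ 4 * 2 ^ L := fun L => by
    induction L with
    | zero => simp
    | succ L ih => nlinarith [L.lt_two_pow_self, pow_succ 2 L]
  have h6 : (T.card : ℝ) ^ 2 ≤ 4 * 2 ^ T.card := by exact_mod_cast h5 _
  have h7 : (1 : ℝ) ≤ 2 ^ T.card := one_le_pow₀ one_le_two
  have p : 0 ≤ y a ^ 4 := by positivity
  refine ⟨?_, Real.le_sqrt_of_sq_le (by nlinarith)⟩
  rw [mul_comm 2, ← div_le_iff₀ two_pos]
  exact Real.le_sqrt_of_sq_le (by nlinarith)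

noncomputable def hl (D : Finset Γ) (y : Γ → ℝ) (i : I) : ℝ :=
  if i.2 ∈ D then i.1.elim (y i.2 ^ 3) fun n => if Lt D y n i.2 then -y i.2 ^ 3 else 0 else 0

lemma hb (D : Finset Γ) (y : Γ → ℝ) :
    Bd (hl D y) (3 * √(∑ b ∈ D, y b ^ 4) * ∑ b ∈ D, y b ^ 4) := fun S l Q ⟨a1, _⟩ => by
  have q0 : ∀ a, qq (hl D y) l a ≠ 0 → a ∈ D ∧ ¬Lt D y (l a) a := fun a h => by
    by_cases h1 : a ∈ D <;> by_cases h2 : Lt D y (l a) a <;> simp_all [qq, hl]
  have h1 := dg (φ := hl D y) l Q D (fun a => y a ^ 3) fun e he h => by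
    obtain ⟨p1, p2⟩ := q0 _ (left_ne_zero_of_mul h)
    obtain ⟨-, p4⟩ := q0 _ (right_ne_zero_of_mul h)
    refine ⟨(a1 e he).2.resolve_right fun ⟨b1, b2⟩ => ?_, p1, by simp [qq, hl, p1, p2, -abs_pow]⟩
    rw [← (a1 e he).1] at p4
    have m1 : ms D y (l e.1) e.2 = ms D y (l e.1) e.1 :=
      Finset.sum_congr (Finset.filter_congr fun b _ => forall₂_congr fun i hi => by rw [b1 i hi])
        fun _ _ => rfl
    have m2 : ms D y (l e.1 + 1) e.1 + ms D y (l e.1 + 1) e.2 ≤ ms D y (l e.1) e.1 := by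
      rw [ms, ms, ← Finset.sum_union (Finset.disjoint_filter.2 fun b _ p q =>
        b2 ((p _ (by omega)).symm.trans (q _ (by omega))))]
      refine Finset.sum_le_sum_of_subset_of_nonneg (Finset.union_subset ?_ ?_)
        fun _ _ _ => by positivity
      · exact Finset.monotone_filter_right _ fun b _ hb i hi => hb i (by omega)
      · exact Finset.monotone_filter_right _ fun b _ hb i hi =>
          (hb i (by omega)).trans (b1 i hi).symm
    rw [Lt, not_le] at p2 p4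
    linarith
  have h2 : ∑ s ∈ S, hl D y (some s.1, s.2) ^ 2 ≤
      ∑ a ∈ D, 2 * √(∑ b ∈ D, y b ^ 4) * y a ^ 4 := by
    rw [Finset.sum_congr rfl (g := fun s => if s.2 ∈ D ∧ Lt D y s.1 s.2 then (y s.2 ^ 3) ^ 2 else 0)
      fun s _ => by by_cases h1 : s.2 ∈ D <;> by_cases h2 : Lt D y s.1 s.2 <;> simp [hl, h1, h2],
      ← Finset.sum_filter, ← Finset.sum_fiberwise_of_maps_to (g := Prod.snd) (t := D)
        fun s hs => (Finset.mem_filter.1 hs).2.1]
    refine Finset.sum_le_sum fun a ha => ?_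
    rw [Finset.sum_congr rfl (g := fun _ => (y a ^ 3) ^ 2) fun e he => by
      rw [(Finset.mem_filter.1 he).2], Finset.sum_const, nsmul_eq_mul,
      ← Finset.card_image_of_injOn (f := Prod.fst) fun e he e' he' h =>
        Prod.ext h (Eq.trans (Finset.mem_filter.1 he).2 (Finset.mem_filter.1 he').2.symm),
      show (y a ^ 3) ^ 2 = y a ^ 2 * y a ^ 4 by ring, ← mul_assoc]
    refine mul_le_mul_of_nonneg_right (cnt2 D y ha _ fun n hn => ?_).1 (by positivity)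
    obtain ⟨e, he, rfl⟩ := Finset.mem_image.1 hn
    simp only [Finset.mem_filter] at he
    exact he.2 ▸ he.1.2.2
  have h3 : ∑ a ∈ D, (y a ^ 3) ^ 2 ≤ ∑ a ∈ D, √(∑ b ∈ D, y b ^ 4) * y a ^ 4 :=
    Finset.sum_le_sum fun a ha => by
      rw [show (y a ^ 3) ^ 2 = y a ^ 2 * y a ^ 4 by ring]
      exact mul_le_mul_of_nonneg_right (cnt2 D y ha ∅ (by simp)).2 (by positivity)
  rw [← Finset.mul_sum] at h2 h3
  rw [val]
  linarith

end Pool.Agent.H.MP_2f2b65_an
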