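import Pool.Agent.H.MP_2f2b65_an.B

set_option autoImplicit false

namespace Pool.Agent.H.MP_2f2b65_an

open Filter Topology Set Classical Finsupp

variable {X : Type} [NormedAddCommGroup X] [NormedSpace ℝ X] {j : (I →₀ ℝ) →ₗ[ℝ] X}
  {φ : I → ℝ} {t : ℝ}

structure Sp (j : (I →₀ ℝ) →ₗ[ℝ] X) : Prop where
  d : DenseRange j
  u : ∀ x r, 0 ≤ r → (∀ φ, Bd φ 1 → |pr φ x| ≤ r) → ‖j x‖ ≤ r
  l : ∀ φ, Bd φ 1 → ∀ x, |pr φ x| ≤ ‖j x‖

lemma pr_eq (φ : I → ℝ) (x : I →₀ ℝ) : pr φ x = ∑ i ∈ x.support, x i * φ i := rfl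

lemma pr_single (φ : I → ℝ) (i : I) (c : ℝ) : pr φ (single i c) = c * φ i := by simp [pr]

lemma Sp.ev (h : Sp j) (hφ : Bd φ t) (x : I →₀ ℝ) : pr φ x ^ 2 ≤ t * ‖j x‖ ^ 2 := by
  have k : ∀ s, t < s → pr φ x ^ 2 ≤ s * ‖j x‖ ^ 2 := fun s hs => by
    have s0 := hφ.nn.trans_lt hs
    have := h.l ((√s)⁻¹ • φ) (fun S l Q hQ => (hφ.smul _ S l Q hQ).trans (by
      rw [inv_pow, Real.sq_sqrt s0.le, inv_mul_le_one₀ s0]
      exact hs.le)) x
    rw [show pr ((√s)⁻¹ • φ) x = (√s)⁻¹ * pr φ x by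
      simp only [pr_eq, Finset.mul_sum, Pi.smul_apply, smul_eq_mul, mul_left_comm]] at this
    have := pow_le_pow_left₀ (abs_nonneg _) this 2
    rwa [sq_abs, mul_pow, inv_pow, Real.sq_sqrt s0.le, inv_mul_le_iff₀ s0] at this
  exact ge_of_tendsto (x := 𝓝[>] t) (f := fun s => s * ‖j x‖ ^ 2)
    (((continuous_id.mul continuous_const).tendsto t).mono_left nhdsWithin_le_nhds)
    (eventually_nhdsWithin_of_forall k)

lemma Sp.usq (h : Sp j) {x : I →₀ ℝ} (t0 : 0 ≤ t) (hx : ∀ φ, Bd φ 1 → pr φ x ^ 2 ≤ t) :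
    ‖j x‖ ^ 2 ≤ t := by
  rw [← Real.le_sqrt (norm_nonneg _) t0]
  exact h.u x _ (Real.sqrt_nonneg _) fun φ hφ => Real.abs_le_sqrt (hx φ hφ)

noncomputable def fl (D : Set Γ) (x : I →₀ ℝ) : I →₀ ℝ := x.filter (·.2 ∈ D)

lemma fl_self {D : Set Γ} {x : I →₀ ℝ} (h : ∀ i, x i ≠ 0 → i.2 ∈ D) : fl D x = x :=
  (filter_eq_self_iff _ _).2 h

lemma fl_mem {D : Set Γ} {x : I →₀ ℝ} {i : I} (h : i ∈ (fl D x).support) : i.2 ∈ D := by
  rw [fl, support_filter] at h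
  exact (Finset.mem_filter.1 h).2

lemma pr_res (D : Set Γ) (φ : I → ℝ) (x : I →₀ ℝ) : pr (res D φ) x = pr φ (fl D x) := by
  rw [pr_eq, pr_eq, fl, support_filter, Finset.sum_filter]
  exact Finset.sum_congr rfl fun i _ => by by_cases h : i.2 ∈ D <;> simp [res, h]

lemma Sp.fil (h : Sp j) (D : Set Γ) (x : I →₀ ℝ) : ‖j (fl D x)‖ ≤ ‖j x‖ :=
  h.u _ _ (norm_nonneg _) fun φ hφ => by
    obtain ⟨a, h1, h2⟩ := split hφ D {a | a ∉ D} fun _ => Iff.rfl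
    rw [← pr_res]
    exact h.l _ (fun S l Q hQ => (h1 S l Q hQ).trans (by linarith [h2.nn])) x

lemma Sp.up (h : Sp j) {x y : I →₀ ℝ} (hd : ∀ i ∈ x.support, ∀ k ∈ y.support, i.2 ≠ k.2) :
    ‖j (x + y)‖ ^ 2 ≤ ‖j x‖ ^ 2 + ‖j y‖ ^ 2 := h.usq (by positivity) fun φ hφ => by
  obtain ⟨a, h1, h2⟩ := split hφ {a | ∃ i ∈ x.support, i.2 = a} {a | ¬∃ i ∈ x.support, i.2 = a}
    fun _ => Iff.rfl
  have e1 := h.ev h1 x
  have e2 := h.ev h2 y
  rw [pr_res, fl_self fun i hi => by exact ⟨i, mem_support_iff.2 hi, rfl⟩] at e1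
  rw [pr_res, fl_self fun k hk => by
    exact fun ⟨i, hi, e⟩ => hd i hi k (mem_support_iff.2 hk) e] at e2
  have e3 : pr φ x * pr φ y ≤ ((1 - a) * ‖j x‖ ^ 2 + a * ‖j y‖ ^ 2) / 2 := by
    have := h1.nn
    have := h2.nn
    refine le_of_sq_le_sq ?_ (by positivity)
    rw [mul_pow]
    refine (mul_le_mul e1 e2 (sq_nonneg _) (by positivity)).trans ?_
    nlinarith [sq_nonneg ((1 - a) * ‖j x‖ ^ 2 - a * ‖j y‖ ^ 2)]
  rw [map_add]
  nlinarith

lemma Sp.tail (h : Sp j) (f : X →L[ℝ] ℝ) {ε : ℝ} (hε : 0 < ε) :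
    ∃ F : Finset Γ, ∀ x : I →₀ ℝ, (∀ i ∈ x.support, i.2 ∉ F) → |f (j x)| ≤ ε * ‖j x‖ := by
  by_contra hc
  push Not at hc
  have k : ∀ n : ℕ, ∃ x, n * ε ≤ f (j x) ∧ ‖j x‖ ^ 2 ≤ n := fun n => by
    induction n with
    | zero => exact ⟨0, by simp, by simp⟩
    | succ n ih =>
      obtain ⟨x, h1, h2⟩ := ih
      obtain ⟨y, h3, h4⟩ := hc (x.support.image Prod.snd)
      have p : 0 < |f (j y)| := (by positivity : 0 ≤ ε * ‖j y‖).trans_lt h4
      refine ⟨x + (ε / f (j y)) • y, ?_, (h.up fun i hi k hk e => h3 k (support_smul hk)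
        (Finset.mem_image.2 ⟨i, hi, e⟩)).trans ?_⟩
      · rw [map_add, map_add, map_smul, map_smul, smul_eq_mul, div_mul_cancel₀ _ (abs_pos.1 p)]
        push_cast
        linarith
      · have : ‖j ((ε / f (j y)) • y)‖ ≤ 1 := by
          rw [map_smul, norm_smul, Real.norm_eq_abs, abs_div, abs_of_pos hε, div_mul_eq_mul_div,
            div_le_one p]
          exact h4.le
        push_cast
        nlinarith [norm_nonneg (j ((ε / f (j y)) • y))]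
  obtain ⟨n, hn⟩ := exists_nat_gt (‖f‖ ^ 2 / ε ^ 2)
  obtain ⟨x, h1, h2⟩ := k n
  have n0 : (0 : ℝ) < n := (by positivity : 0 ≤ ‖f‖ ^ 2 / ε ^ 2).trans_lt hn
  have := pow_le_pow_left₀ (by positivity) (h1.trans ((le_abs_self _).trans (f.le_opNorm _))) 2
  rw [div_lt_iff₀ (by positivity)] at hn
  nlinarith [mul_le_mul_of_nonneg_left h2 (sq_nonneg ‖f‖), mul_lt_mul_of_pos_left hn n0]

def sw (s : ℕ × Γ) : I := (some s.1, s.2)

lemma sw_inj : Function.Injective sw := fun _ _ h =>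
  Prod.ext (Option.some.inj (Prod.ext_iff.1 h).1) (Prod.ext_iff.1 h).2

lemma pr_vt (T : Finset (ℕ × Γ)) (p : ℕ × Γ → ℝ) (x : I →₀ ℝ) :
    pr (vt T p) x = ∑ s ∈ T, x (sw s) * p s := by
  induction x using Finsupp.induction_linear with
  | zero => simp
  | add a b ha hb => simp [ha, hb, add_mul, Finset.sum_add_distrib]
  | single i c =>
    obtain ⟨_ | n, a⟩ := i
    · simp [pr_single, vt, sw]
    · have : ∀ s, ((some n, a) = sw s) = ((n, a) = s) := fun s => propext (sw_inj.eq_iff (a := (n, a)))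
      simp [pr_single, vt, single_apply, this]

lemma Sp.wb (h : Sp j) (T : Finset (ℕ × Γ)) (F : Finset Γ) (hF : ∀ s ∈ T, s.2 ∈ F) (ω : ℕ → ℝ)
    (hω : ∀ n : ℕ, (n + 1 : ℝ) ≤ ω n ∨ (F.card : ℝ) ≤ ω n) (x : I →₀ ℝ) :
    ∑ s ∈ T, x (sw s) ^ 2 / (1 + ω s.1) ≤ ‖j x‖ ^ 2 := by
  have ω0 : ∀ n, 0 ≤ ω n := fun n => (hω n).elim (le_trans (by positivity)) (le_trans (by positivity))
  have := h.ev (vb T (fun s => x (sw s) / (1 + ω s.1)) F hF ω hω) x
  rw [pr_vt, Finset.sum_congr rfl (g := fun s => x (sw s) ^ 2 / (1 + ω s.1)) fun s _ => by ring,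
    Finset.sum_congr rfl (f := fun s => (1 + ω s.1) * _) (g := fun s => x (sw s) ^ 2 / (1 + ω s.1))
      fun s _ => by
        have := ω0 s.1
        field_simp] at this
  exact (Finset.sum_nonneg fun s _ => div_nonneg (sq_nonneg _) (by linarith [ω0 s.1])).eq_or_lt.elim
    (fun e => e ▸ sq_nonneg _) fun p => le_of_mul_le_mul_left (by rwa [← sq]) p

lemma Sp.ext (h : Sp j) (hφ : Bd φ t) :
    ∃ Λ : X →L[ℝ] ℝ, (∀ x, Λ (j x) = pr φ x) ∧ ∀ z, Λ z ^ 2 ≤ t * ‖z‖ ^ 2 := by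
  have := fun x => (pr φ).extendOfNorm_eq h.d ⟨√t, fun x => by
    rw [← Real.sqrt_sq (norm_nonneg (j x)), ← Real.sqrt_mul hφ.nn]
    exact Real.abs_le_sqrt (h.ev hφ x)⟩ x
  exact ⟨_, this, fun z => h.d.induction_on z (isClosed_le (by fun_prop) (by fun_prop))
    fun x => (this x).symm ▸ h.ev hφ x⟩

lemma Sp.yy (h : Sp j) (a : Γ) :
    ∃ Λ : X →L[ℝ] ℝ, (∀ x, Λ (j x) = x (none, a)) ∧ ∀ z, |Λ z| ≤ ‖z‖ := by
  obtain ⟨Λ, h1, h2⟩ := h.ext (fb a)
  refine ⟨Λ, fun x => (h1 x).trans ?_, fun z => abs_le_of_sq_le_sq (by simpa using h2 z)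
    (norm_nonneg _)⟩
  simp only [pr_eq, Pi.single_apply, mul_ite, mul_one, mul_zero, Finset.sum_ite_eq']
  split_ifs with h
  · rfl
  · exact (notMem_support_iff.1 h).symm

lemma Sp.ww (h : Sp j) (s : ℕ × Γ) : ∃ Λ : X →L[ℝ] ℝ, ∀ x, Λ (j x) = x (sw s) := by
  obtain ⟨Λ, h1, -⟩ := h.ext (vb {s} 1 {s.2} (by simp) 1 fun _ => Or.inr (by simp))
  exact ⟨Λ, fun x => by simp [h1, pr_vt]⟩

lemma Sp.l2 (h : Sp j) (f : X →L[ℝ] ℝ) : Summable fun s => f (j (single (sw s) 1)) ^ 2 := by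
  refine summable_of_sum_le (c := ‖f‖ ^ 2) (fun _ => sq_nonneg _) fun S => ?_
  set b := fun s => f (j (single (sw s) 1))
  have h1 : ‖j (∑ s ∈ S, b s • single (sw s) 1)‖ ^ 2 ≤ ∑ s ∈ S, b s ^ 2 :=
    h.usq (by positivity) fun φ hφ => by
      have := hφ S 0 ∅ ok0
      simp only [val, Finset.sum_empty, add_zero] at this
      simp only [map_sum, map_smul, pr_single, one_mul, smul_eq_mul]
      exact (Finset.sum_mul_sq_le_sq_mul_sq _ _ _).trans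
        (mul_le_of_le_one_right (by positivity) this)
  have h2 := pow_le_pow_left₀ (abs_nonneg _) (show |_| ≤ _ from f.le_opNorm (j (∑ s ∈ S, b s • single (sw s) 1))) 2
  rw [sq_abs, mul_pow] at h2
  replace h2 := h2.trans (mul_le_mul_of_nonneg_left h1 (sq_nonneg _))
  rw [show f (j (∑ s ∈ S, b s • single (sw s) 1)) = ∑ s ∈ S, b s ^ 2 by
    simp only [map_sum, map_smul, smul_eq_mul, sq, b]] at h2
  exact (Finset.sum_nonneg fun s _ => sq_nonneg (b s)).eq_or_lt.elim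
    (fun e => e ▸ sq_nonneg _) fun p => le_of_mul_le_mul_right (by rwa [← sq]) p

lemma dec (L : (I →₀ ℝ) →ₗ[ℝ] ℝ) (F : Finset Γ) (T : Finset (ℕ × Γ)) (hT : ∀ s ∈ T, s.2 ∈ F)
    (x : I →₀ ℝ) (hx : ∀ s, sw s ∈ x.support → s.2 ∈ F → s ∈ T) :
    L x = L (fl {a | a ∉ F} x) + ∑ a ∈ F, L (single (none, a) 1) * x (none, a) +
      ∑ s ∈ T, L (single (sw s) 1) * x (sw s) := by
  have : x = fl {a | a ∉ F} x + ∑ a ∈ F, x (none, a) • single (none, a) 1 +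
      ∑ s ∈ T, x (sw s) • single (sw s) 1 := by
    ext ⟨_ | n, a⟩
    · by_cases h : a ∈ F <;> simp [fl, single_apply, sw, h]
    · have e : ∀ s, (sw s = (some n, a)) = (s = (n, a)) := fun s =>
        propext (sw_inj.eq_iff (b := (n, a)))
      have h1 := hT (n, a)
      have h2 := hx (n, a)
      simp only [Finsupp.add_apply, finsetSum_apply, Finsupp.smul_apply, single_apply, e]
      by_cases h : a ∈ F <;> by_cases h' : (n, a) ∈ T <;> simp_all [fl, sw]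
  conv_lhs => rw [this]
  simp only [map_add, map_sum, map_smul, smul_eq_mul, mul_comm]

lemma Sp.shr (h : Sp j) {y : Γ → X →L[ℝ] ℝ} {w : ℕ × Γ → X →L[ℝ] ℝ}
    (hy : ∀ a x, y a (j x) = x (none, a)) (hw : ∀ s x, w s (j x) = x (sw s))
    (f : X →L[ℝ] ℝ) {ε : ℝ} (hε : 0 < ε) : ∃ (F : Finset Γ) (S : Finset (ℕ × Γ)), ∀ z,
      |f z - ∑ a ∈ F, f (j (single (none, a) 1)) * y a z -
        ∑ s ∈ S, f (j (single (sw s) 1)) * w s z| ≤ 2 * ε * ‖z‖ := by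
  obtain ⟨F, hF⟩ := h.tail f hε
  obtain ⟨S, hS⟩ := (h.l2 f).vanishing (gt_mem_nhds (show 0 < ε ^ 2 / (1 + F.card) by positivity))
  refine ⟨F, S.filter (·.2 ∈ F), fun z => h.d.induction_on z
    (isClosed_le (by fun_prop) (by fun_prop)) fun x => ?_⟩
  set T := (x.support.preimage sw sw_inj.injOn).filter fun s => s.2 ∈ F ∧ s ∉ S
  have d : Disjoint T S := Finset.disjoint_left.2 fun s hs => (Finset.mem_filter.1 hs).2.2
  have hT : ∀ s ∈ T, s.2 ∈ F := fun s hs => (Finset.mem_filter.1 hs).2.1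
  have e := dec (f.toLinearMap ∘ₗ j) F (T ∪ S.filter (·.2 ∈ F))
    (fun s hs => (Finset.mem_union.1 hs).elim (hT s) fun h => (Finset.mem_filter.1 h).2) x
    fun s h1 h2 => by
      by_cases h3 : s ∈ S <;> simp_all [T]
  rw [Finset.sum_union (d.mono_right (Finset.filter_subset _ _))] at e
  have h1 := (hF (fl {a | a ∉ F} x) fun i hi => fl_mem hi).trans
    (mul_le_mul_of_nonneg_left (h.fil _ x) hε.le)
  have h2 : |∑ s ∈ T, f (j (single (sw s) 1)) * x (sw s)| ≤ ε * ‖j x‖ := by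
    refine abs_le_of_sq_le_sq ((Finset.sum_mul_sq_le_sq_mul_sq _ _ _).trans ?_) (by positivity)
    have h3 := h.wb T F hT (fun _ => F.card) (fun _ => Or.inr le_rfl) x
    rw [← Finset.sum_div, div_le_iff₀ (by positivity)] at h3
    refine (mul_le_mul (le_of_lt (hS T d)) h3 (by positivity) (by positivity)).trans_eq ?_
    field_simp
  simp only [LinearMap.comp_apply, ContinuousLinearMap.coe_coe] at e
  simp only [hy, hw]
  rw [e, add_right_comm, add_sub_cancel_right, ← add_assoc, add_sub_cancel_right]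
  exact (abs_add_le _ _).trans (by linarith)

lemma Sp.wn (h : Sp j) {y : Γ → X →L[ℝ] ℝ} {w : ℕ × Γ → X →L[ℝ] ℝ}
    (hy : ∀ a x, y a (j x) = x (none, a)) (hw : ∀ s x, w s (j x) = x (sw s))
    (f : X →L[ℝ] ℝ) (z : ℕ → X) (hz : ∀ n, ‖z n‖ ≤ 3)
    (h1 : ∀ a, Tendsto (fun n => f (j (single (none, a) 1)) * y a (z n)) atTop (𝓝 0))
    (h2 : ∀ s, Tendsto (fun n => w s (z n)) atTop (𝓝 0)) :
    Tendsto (fun n => f (z n)) atTop (𝓝 0) := by
  refine Metric.tendsto_nhds.2 fun ε hε => ?_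
  obtain ⟨F, S, hS⟩ := h.shr hy hw f (show 0 < ε / 12 by positivity)
  have := (tendsto_finsetSum F fun a _ => h1 a).add
    (tendsto_finsetSum S fun s _ => (h2 s).const_mul (f (j (single (sw s) 1))))
  simp only [Finset.sum_const_zero, mul_zero, add_zero] at this
  filter_upwards [Metric.tendsto_nhds.1 this _ (half_pos hε)] with n hn
  rw [Real.dist_0_eq_abs, abs_lt] at hn ⊢
  have := abs_le.1 ((hS (z n)).trans (mul_le_mul_of_nonneg_left (hz n) (by positivity)))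
  constructor <;> linarith [this.1, this.2, hn.1, hn.2]

end Pool.Agent.H.MP_2f2b65_an
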