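import Pool.Agent.H.MP_2f2b65_an.C

set_option autoImplicit false

namespace Pool.Agent.H.MP_2f2b65_an

open Filter Topology Set Classical Finsupp

variable {X : Type} [NormedAddCommGroup X] [NormedSpace ℝ X] {j : (I →₀ ℝ) →ₗ[ℝ] X}

noncomputable def YY (j : (I →₀ ℝ) →ₗ[ℝ] X) : Submodule ℝ X :=
  (Submodule.span ℝ (range fun a : Γ => j (single (none, a) 1))).topologicalClosure

lemma YY_mem (a : Γ) : j (single (none, a) 1) ∈ YY j :=
  Submodule.le_topologicalClosure _ (Submodule.subset_span ⟨a, rfl⟩)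

lemma YY_le (f : X →L[ℝ] ℝ) (h : ∀ a, f (j (single (none, a) 1)) = 0) : YY j ≤ f.ker :=
  Submodule.topologicalClosure_minimal _ (Submodule.span_le.2 (by
    rintro _ ⟨a, rfl⟩
    exact h a)) f.isClosed_ker

lemma Sp.notw (h : Sp j) : ¬Wur X := by
  choose y hy hy' using h.yy
  refine no_wur y (fun n a => j (single (none, a) 1 + single (some n, a) 1)) hy'
    (fun n a => by simp [hy]) fun n a ha ε hε => ?_
  have inj : InjOn a (Finset.range (n + 1)) := fun k hk l hl e => by_contra fun h =>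
    (ha k (by simpa [Nat.lt_succ_iff] using hk) l (by simpa [Nat.lt_succ_iff] using hl) h).2
      (by rw [e])
  have cd : ((Finset.range (n + 1)).image a).card ≤ n + 1 :=
    Finset.card_image_le.trans_eq (Finset.card_range _)
  simp only [← map_smul, ← map_sum]
  refine h.u _ _ zero_le_one fun φ hφ => ?_
  have := hφ ∅ (fun _ => n) ((Finset.range (n + 1)).image a ×ˢ (Finset.range (n + 1)).image a)
    ⟨fun e he => ⟨rfl, ?_⟩, fun b => le_trans (Finset.card_le_card_of_injOn Prod.snd
      (fun e he => (Finset.mem_product.1 (Finset.mem_filter.1 he).1).2) fun e he e' he' h =>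
        Prod.ext (Eq.trans (Finset.mem_filter.1 he).2 (Finset.mem_filter.1 he').2.symm) h) cd,
      fun b => le_trans (Finset.card_le_card_of_injOn Prod.fst
      (fun e he => (Finset.mem_product.1 (Finset.mem_filter.1 he).1).1) fun e he e' he' h =>
        Prod.ext h (Eq.trans (Finset.mem_filter.1 he).2 (Finset.mem_filter.1 he').2.symm)) cd⟩
  · rw [val, Finset.sum_empty, zero_add, Finset.sum_product' (f := fun b c =>
      qq φ (fun _ => n) b * qq φ (fun _ => n) c), ← Finset.sum_mul_sum, Finset.sum_image inj,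
      ← sq, sq_le_one_iff₀ (Finset.sum_nonneg fun _ _ => abs_nonneg _)] at this
    rw [map_sum]
    refine (Finset.abs_sum_le_sum_abs _ _).trans (le_trans (Finset.sum_le_sum fun k _ => ?_) this)
    rw [map_smul, map_add, pr_single, pr_single, one_mul, one_mul, smul_eq_mul, abs_mul]
    exact mul_le_of_le_one_left (abs_nonneg _) (hε k)
  · obtain ⟨h1, h2⟩ := Finset.mem_product.1 he
    obtain ⟨k, hk, e1⟩ := Finset.mem_image.1 h1
    obtain ⟨l, hl, e2⟩ := Finset.mem_image.1 h2
    rw [← e1, ← e2]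
    exact (eq_or_ne k l).imp (congrArg a) (ha k (by simpa [Nat.lt_succ_iff] using hk) l
      (by simpa [Nat.lt_succ_iff] using hl))

lemma ww0 {w : ℕ × Γ → X →L[ℝ] ℝ} (hw : ∀ s x, w s (j x) = x (sw s)) (s : ℕ × Γ) :
    YY j ≤ (w s).ker := YY_le _ fun a => by simp [hw, sw]

lemma Sp.wy (h : Sp j) : Wur (YY j) := by
  choose y hy hy' using h.yy
  choose w hw using h.ww
  refine mk_wur (fun a => (y a).comp (YY j).subtypeL) (K := 9) (by norm_num) (fun D z => ?_)
    fun f z hz h1 => ?_
  · obtain ⟨Λ, h1, h2⟩ := h.ext (hb D fun a => y a z)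
    have h3 : (Λ - ∑ a ∈ D, y a z ^ 3 • y a) z = 0 := YY_le _ (fun a => by
      simp [h1, pr_single, hl, hy, single_apply]) z.2
    have h4 := h2 z
    rw [_root_.sub_apply, sub_eq_zero, _root_.sum_apply] at h3
    rw [h3, Finset.sum_congr rfl (g := fun a => y a z ^ 4) fun a _ => by
      rw [_root_.smul_apply, smul_eq_mul, ← pow_succ]] at h4
    change ∑ a ∈ D, y a z ^ 4 ≤ 9 * ‖(z : X)‖ ^ 4
    have p : 0 ≤ ∑ a ∈ D, y a z ^ 4 := Finset.sum_nonneg fun _ _ => by positivity
    have q := Real.sq_sqrt p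
    have r := Real.sqrt_nonneg (∑ a ∈ D, y a z ^ 4)
    generalize √(∑ a ∈ D, y a z ^ 4) = B at h4 q r
    rw [← q] at h4 ⊢
    rcases r.eq_or_lt with rfl | r
    · simp
    · have : B ≤ 3 * ‖(z : X)‖ ^ 2 := le_of_mul_le_mul_left (a := B ^ 3) (by linarith) (by positivity)
      nlinarith
  · obtain ⟨g, hg, -⟩ := exists_extension_norm_eq (YY j) f
    simp only [← hg]
    refine h.wn hy hw g (fun n => z n) (fun n => (hz n).trans (by norm_num)) (fun a => ?_) fun s => ?_
    · simpa using (h1 a).const_mul (g (j (single (none, a) 1)))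
    · exact tendsto_const_nhds.congr fun n => (ww0 hw s (z n).2).symm

lemma Sp.wq (h : Sp j) [IsClosed (YY j : Set X)] : Wur (X ⧸ YY j) := by
  choose y hy hy' using h.yy
  choose w hw using h.ww
  refine mk_wur (fun s => (1 + (s.1 + 1) : ℝ)⁻¹ • (YY j).liftQL (w s) (ww0 hw s)) (K := 1)
    zero_le_one (fun S z => ?_) fun f z hz h1 => ?_
  · have k : ∀ x : X, ∑ s ∈ S, w s x ^ 2 / (1 + (s.1 + 1)) ≤ ‖x‖ ^ 2 := fun x =>
      h.d.induction_on x (isClosed_le (by fun_prop) (by fun_prop)) fun x => by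
        simp only [hw]
        exact h.wb S (S.image Prod.snd) (fun s hs => Finset.mem_image_of_mem _ hs)
          (fun n => n + 1) (fun _ => Or.inl le_rfl) x
    refine ge_of_tendsto (x := 𝓝[>] 0) (f := fun ε : ℝ => (‖z‖ + ε) ^ 4)
      ((Continuous.tendsto' (by fun_prop) _ _ (by simp)).mono_left nhdsWithin_le_nhds)
      (eventually_nhdsWithin_of_forall fun ε hε => ?_)
    obtain ⟨x, rfl, hx⟩ := Submodule.Quotient.norm_mk_lt z hε
    refine le_trans ?_ (pow_le_pow_left₀ (norm_nonneg _) hx.le 4)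
    rw [show ‖x‖ ^ 4 = (‖x‖ ^ 2) ^ 2 by ring]
    refine le_trans (Finset.sum_le_sum fun s _ => ?_) ((Finset.sum_sq_le_sq_sum_of_nonneg
      fun _ _ => by positivity).trans (pow_le_pow_left₀ (by positivity) (k x) 2))
    change ((1 + (s.1 + 1) : ℝ)⁻¹ * w s x) ^ 4 ≤ _
    have : (1 : ℝ) ≤ 1 + (s.1 + 1) := le_add_of_nonneg_right (by positivity)
    rw [inv_mul_eq_div, div_pow, div_pow, ← pow_mul]
    exact div_le_div_of_nonneg_left (by positivity) (by positivity)
      (pow_le_pow_right₀ this (by norm_num))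
  · choose x hx hx' using fun n => Submodule.Quotient.norm_mk_lt (z n) one_pos
    simp only [← hx] at h1 ⊢
    refine h.wn hy hw (f.comp (YY j).mkQL) x (fun n => by linarith [hz n, hx' n])
      (fun a => tendsto_const_nhds.congr fun n => ?_) fun s => ?_
    · change 0 = f (Submodule.Quotient.mk _) * _
      rw [(Submodule.Quotient.mk_eq_zero _).2 (YY_mem a), map_zero, zero_mul]
    · have := (h1 s).const_mul (1 + (s.1 + 1) : ℝ)
      rw [mul_zero] at this
      exact this.congr fun n => mul_inv_cancel_left₀ (by positivity) _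

theorem main : ¬∀ (X : Type) [NormedAddCommGroup X] [NormedSpace ℝ X] [CompleteSpace X]
    (Y : Submodule ℝ X) [IsClosed (Y : Set X)], Wur Y → Wur (X ⧸ Y) → Wur X := fun H => by
  obtain ⟨X, _, _, _, j, h1, h2, h3⟩ := space {φ | Bd φ 1} fun _ => Bd.two
  have h : Sp j := ⟨h1, h2, h3⟩
  have : IsClosed (YY j : Set X) := Submodule.isClosed_topologicalClosure _
  exact h.notw (H X (YY j) h.wy h.wq)

end Pool.Agent.H.MP_2f2b65_an
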